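import Pool.Agent.X183.EFac

/-!
# Anosov diffeomorphisms and expansive homeomorphisms which contain a large image of a known one

Let `f` be a `C¹` Anosov diffeomorphism with global product structure of a closed connected
manifold `M`, for instance a hyperbolic automorphism of a torus or of an infranilmanifold, and let
`h : M → M'` be a continuous map into a closed connected manifold `M'` of dimension at most `dim M`
which semiconjugates `f` to the restriction of an expansive homeomorphism `g` of `M'` to the closed
invariant set `h(M)`.  It is not assumed that `h` is surjective, that `g` is transitive or smooth,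
nor that `M'` is smooth; `g` can be any Anosov diffeomorphism, as these are expansive.  If the
entropy of `g` on `h(M)` is at least the entropy of `f`, or if the fibres of `h` are countable,
or if `h` identifies only boundedly many points homoclinic to each other, or if for a single
periodic point `p` the fibre of `p` meets the stable set (or the unstable set) of `p` in a finite
set, then `h(M) = M'`, `g` is topologically transitive and has global product structure, `h` is a
covering map with finite fibres, and `M'` is covered by a Euclidean space.
-/

set_option autoImplicit false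

open scoped Manifold ContDiff Topology
open Set Filter

namespace Pool.Agent.Results.MP_610fe3_an.EntropyImages

open Pool.Agent.H721R2 Pool.Agent.H789R2.AN Pool.Agent.TH289 Pool.Agent.TH289.K

/-- **Transitivity of the expansive homeomorphisms which contain an image of full entropy of an
Anosov diffeomorphism with global product structure.** -/
theorem result (E : Type*) [NormedAddCommGroup E] [NormedSpace ℝ E] [FiniteDimensional ℝ E]
    (M : Type*) [MetricSpace M] [CompactSpace M] [ConnectedSpace M]
    [ChartedSpace E M] [IsManifold 𝓘(ℝ, E) ∞ M] (f : Diffeomorph 𝓘(ℝ, E) 𝓘(ℝ, E) M M 1)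
    (Es Eu : ∀ x : M, Submodule ℝ (TangentSpace 𝓘(ℝ, E) x)) (hf : IsAnosov f Es Eu)
    (hG : GPS f.toHomeomorph)
    (E' : Type*) [NormedAddCommGroup E'] [NormedSpace ℝ E'] [FiniteDimensional ℝ E']
    (M' : Type*) [MetricSpace M'] [CompactSpace M'] [ConnectedSpace M'] [ChartedSpace E' M']
    (g : M' ≃ₜ M') (hg : Expansive g) (hdim : Module.finrank ℝ E' ≤ Module.finrank ℝ E)
    (h : C(M, M')) (hfg : ∀ x, h (f x) = g (h x)) :
    List.TFAE [Dynamics.coverEntropy f univ ≤ Dynamics.coverEntropy g (range h),
      ∀ y, (h ⁻¹' {y}).Countable,
      ∃ B : ℕ, ∀ x, {y | h y = h x ∧ Asym f x y ∧ Asym f.symm x y}.encard ≤ B,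
      ∃ p ∈ Function.periodicPts f, (h ⁻¹' {h p} ∩ {y | Asym f p y}).Finite ∨
        (h ⁻¹' {h p} ∩ {y | Asym f.symm p y}).Finite,
      IsCoveringMap h,
      IsCoveringMap h ∧ Function.Surjective h ∧ (∀ y, (h ⁻¹' {y}).Finite) ∧ GPS g ∧
        TopTransitive g ∧ ∃ π : E → M', IsCoveringMap π ∧ Function.Surjective π] :=
  Pool.Agent.X183.EFac.man_exp_range f Es Eu hf hG g hg hdim h h.continuous hfg

end Pool.Agent.Results.MP_610fe3_an.EntropyImages
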