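import Pool.Agent.X183.Gap.B5

set_option autoImplicit false

open scoped Manifold ContDiff Topology
open Set Filter

namespace Pool.Agent.Results.MP_610fe3_an.GrowthGap

open Pool.Agent.H721R2 Pool.Agent.H789R2.AN Pool.Agent.Y330.G

/-- **Transitivity is uniform growth of the two foliations, and there is a quadratic gap.**
Let `f` be a `C¹` Anosov diffeomorphism of a closed connected manifold `M` (with any metric
compatible with the topology); nothing else is assumed, in particular not that `f` is transitive.
`P f ε δ n x` is the largest number of points of the local unstable set of `x` of size `ε` (the points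
`y` with `d(f⁻ᵏ x, f⁻ᵏ y) ≤ ε` for all `k ≥ 0`) that are pairwise `δ`-separated in the times `0, …, n`
(`d(fᵏ y, fᵏ z) > δ` for some `k ≤ n`), a discrete version of the volume of the image under `fⁿ` of the
local unstable manifold of `x`; `P f⁻¹ ε δ n x` is the same number for the local stable set.

For all sufficiently small `ε`, `δ > 0` the following are equivalent.
* `f` is topologically transitive.
* The local unstable sets and the local stable sets grow uniformly: `P f n x ≤ C P f n y` and
  `P f⁻¹ n x ≤ C P f⁻¹ n y` for some `C` and all `n`, `x`, `y`.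
* For any two points `x`, `y` the product `(P f n y / P f n x) (P f⁻¹ n x / P f⁻¹ n y)` is bounded.
* For any two points `x`, `y` this product is not eventually at least `κ (n + 1)²`, for any `κ > 0`:
  its quotient by `n²` has lower limit `0` along the natural numbers.

So, if `f` is not transitive, there are two points `x`, `y` (any point of a suitable minimal attractor
and any point of a suitable minimal repeller) and a constant `κ > 0` such that
`(P f n y / P f n x) (P f⁻¹ n x / P f⁻¹ n y) ≥ κ (n + 1)²` for ALL `n`. -/
theorem result (E : Type*) [NormedAddCommGroup E] [NormedSpace ℝ E] [FiniteDimensional ℝ E]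
    (M : Type*) [MetricSpace M] [CompactSpace M] [ConnectedSpace M]
    [ChartedSpace E M] [IsManifold 𝓘(ℝ, E) ∞ M] (f : Diffeomorph 𝓘(ℝ, E) 𝓘(ℝ, E) M M 1)
    (Es Eu : ∀ x : M, Submodule ℝ (TangentSpace 𝓘(ℝ, E) x)) (hA : IsAnosov f Es Eu) :
    ∃ ρ > 0, ∀ ε > 0, ε ≤ ρ → ∀ δ > 0, δ ≤ ρ →
      List.TFAE [TopTransitive f,
        ∃ C : ℕ, ∀ n x y, P f.toHomeomorph ε δ n x ≤ C * P f.toHomeomorph ε δ n y ∧
          P f.toHomeomorph.symm ε δ n x ≤ C * P f.toHomeomorph.symm ε δ n y,
        ∀ x y, ∃ C : ℕ, ∀ n, P f.toHomeomorph ε δ n y * P f.toHomeomorph.symm ε δ n x ≤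
          C * (P f.toHomeomorph ε δ n x * P f.toHomeomorph.symm ε δ n y),
        ∀ x y, ∀ C : ℕ, ∃ n : ℕ,
          C * (P f.toHomeomorph ε δ n y * P f.toHomeomorph.symm ε δ n x) <
            (n + 1) ^ 2 * (P f.toHomeomorph ε δ n x * P f.toHomeomorph.symm ε δ n y)] :=
  Pool.Agent.X183.Gap.man_gap f Es Eu hA

end Pool.Agent.Results.MP_610fe3_an.GrowthGap
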