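import Pool.Agent.Y331.EP.Trans

set_option autoImplicit false

open scoped Manifold ContDiff Topology
open Set Filter

namespace Pool.Agent.Results.MP_610fe3_an.OpenFactor

open Pool.Agent.H721R2 Pool.Agent.H789R2.AN Pool.Agent.TH289 Pool.Agent.TH289.K
open Pool.Agent.Y331.EP

/-- **Transitivity of Anosov diffeomorphisms with an open expansive factor.**
Let `f` be a `C¹` Anosov diffeomorphism of a closed connected manifold `M`, about which nothing else
is assumed (in particular not that it is transitive).  Let `g` be an expansive, topologically
transitive homeomorphism of a compact metric space `Y`, and let `h : M → Y` be a continuous, open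
and surjective map with `h ∘ f = g ∘ h`.  No global product structure is assumed, `Y` need not be a
manifold, and no fibre of `h` is assumed to be finite.  Then the following are equivalent.
* `f` is topologically transitive and `h_top(f) ≤ h_top(g)`.
* `f` is topologically transitive and there is `C` such that `#Fix(f^n) ≤ C #Fix(g^n)` for
  infinitely many `n`.
* `f` is topologically transitive and every fibre of `h` is countable.
* `h` takes different values at two different points that are both forward and backward asymptotic
  under `f`.
* There is a bound `B` such that, for every `x`, at most `B` points that are both forward and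
  backward asymptotic to `x` have the same image as `x`.
* `h` is a covering map.
* `f` is topologically transitive, `h` is a covering map, and all its fibres are finite. -/
theorem result (E : Type*) [NormedAddCommGroup E] [NormedSpace ℝ E] [FiniteDimensional ℝ E]
    (M : Type*) [MetricSpace M] [CompactSpace M] [ConnectedSpace M]
    [ChartedSpace E M] [IsManifold 𝓘(ℝ, E) ∞ M] (f : Diffeomorph 𝓘(ℝ, E) 𝓘(ℝ, E) M M 1)
    (Es Eu : ∀ x : M, Submodule ℝ (TangentSpace 𝓘(ℝ, E) x)) (hf : IsAnosov f Es Eu)
    (Y : Type*) [MetricSpace Y] [CompactSpace Y]
    (g : Y ≃ₜ Y) (hg : Expansive g) (ht : TopTransitive g)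
    (h : C(M, Y)) (hopen : IsOpenMap h) (hsurj : Function.Surjective h)
    (hfg : ∀ x, h (f x) = g (h x)) :
    List.TFAE [TopTransitive f ∧ Dynamics.coverEntropy f univ ≤ Dynamics.coverEntropy g univ,
      TopTransitive f ∧ ∃ C : ℕ, ∃ᶠ n in atTop,
        {x | f^[n] x = x}.ncard ≤ C * {y | g^[n] y = y}.ncard,
      TopTransitive f ∧ ∀ y, (h ⁻¹' {y}).Countable,
      ∀ x y, h x = h y → Asym f x y → Asym f.symm x y → x = y,
      ∃ B : ℕ, ∀ x, {y | h y = h x ∧ Asym f x y ∧ Asym f.symm x y}.encard ≤ B,
      IsCoveringMap h,
      TopTransitive f ∧ IsCoveringMap h ∧ ∀ y, (h ⁻¹' {y}).Finite] :=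
  man_open_trans f Es Eu hf g hg ht h h.continuous hopen hsurj hfg

end Pool.Agent.Results.MP_610fe3_an.OpenFactor
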