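import Pool.Agent.X183.Tm.A4

set_option autoImplicit false

open scoped Manifold ContDiff Topology
open Set Filter MeasureTheory

namespace Pool.Agent.Results.MP_610fe3_an.TransverseMeasures

open Pool.Agent.H721R2 Pool.Agent.H789R2.AN Pool.Agent.X183.Tm

/-- **The converse of Margulis' theorem: invariant transverse measures of full support imply
transitivity.**
Let `f` be a `C¹` Anosov diffeomorphism of a closed connected manifold `M`, not assumed to be
transitive.  Suppose that the stable foliation has a transverse measure that is invariant under the
stable holonomy, locally finite and positive on all open sets (`TransverseMeasure f ν`: Borel measures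
`ν x` on the unstable leaves, preserved by the stable holonomies, with `0 < ν x D` for the local
unstable sets `D` of `x` of every size, `ν x D < ∞` for those of some size), and that so does the
unstable foliation (`TransverseMeasure f⁻¹ ν'`).  No relation between these measures and `f` is
assumed: they need not be multiplied by a constant by `f`, nor have any regularity.

Then `f` is topologically transitive.

(Margulis: on a transitive Anosov diffeomorphism there are such measures.  One of the two measures is
not enough for the proof, which shows: if `f` is not transitive there are a minimal repeller `R` and a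
minimal attractor `A` joined by a heteroclinic orbit; the existence of `ν` forces
`∑ qₖ / pₖ < ∞` (over the multiples `k` of some `j`) where `qₖ`, `pₖ` are the growths of the stable
sets in `R` and of the unstable sets in `A`, and the existence of `ν'` forces `∑ pₖ / qₖ < ∞`.) -/
theorem result (E : Type*) [NormedAddCommGroup E] [NormedSpace ℝ E] [FiniteDimensional ℝ E]
    (M : Type*) [TopologicalSpace M] [T2Space M] [CompactSpace M] [ConnectedSpace M]
    [MeasurableSpace M] [BorelSpace M]
    [ChartedSpace E M] [IsManifold 𝓘(ℝ, E) ∞ M] (f : Diffeomorph 𝓘(ℝ, E) 𝓘(ℝ, E) M M 1)
    (Es Eu : ∀ x : M, Submodule ℝ (TangentSpace 𝓘(ℝ, E) x)) (hA : IsAnosov f Es Eu)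
    (ν ν' : M → Measure M) (hν : TransverseMeasure f.toHomeomorph ν)
    (hν' : TransverseMeasure f.toHomeomorph.symm ν') : TopTransitive f :=
  man_tm f Es Eu hA hν hν'

end Pool.Agent.Results.MP_610fe3_an.TransverseMeasures
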